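import Pool.Agent.H182.WL

/-!
# Weighing matrices of all weights up to `N / 2 ^ (t + 1)`, `t ≥ C ^ (1 + log* N)`

There is a constant `C` such that for `t ≥ C ^ (r + 1)` and all orders `N` divisible by
`2 ^ (2 t + 1)` there is a weighing matrix of order `N` and weight `k` for every
`k ≤ N / 2 ^ (t + 1)` and for every multiple `k ≤ N` of `2 ^ t`, as long as `k` is at most `2 ^ t` times
the power tower of `r` twos (`t ≥ C ^ (1 + log* N)` suffices for all these `k`).

The multiples of `2 ^ t`: a sign matrix polynomial of size `2 ^ t` and length `m`, para-unitary (the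
`log*` theorem of the library), truncated and read modulo `x ^ S - 1`. The other weights
`k = 2 ^ t m + b`, `b < 2 ^ t`: symmetrize the matrix `A` of weight `2 ^ t m` to `[0, A; Aᵀ, 0]`, and
double `t` times pairs `(D, H)` of matrices, with entries `0, 1, -1` and `D Hᵀ` symmetric, by
`([D, y H; y H, -D], [H, H; -H, H])`, `y = 0` or `1`: the weight of `D` increases by the binary digits
of `b`.
-/

namespace Pool.Agent.Results.MP_be2ccc_co.LogStarWeights

theorem result : ∃ C : ℕ, ∀ r t N k : ℕ, C ^ (r + 1) ≤ t → 2 ^ (2 * t + 1) ∣ N → k ≤ N →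
    k ≤ 2 ^ t * (fun x : ℕ => 2 ^ x)^[r] 1 → (2 ^ (t + 1) * k ≤ N ∨ 2 ^ t ∣ k) →
    ∃ A : Matrix (Fin N) (Fin N) ℤ,
      (∀ i j, A i j = 0 ∨ A i j = 1 ∨ A i j = -1) ∧
      A.transpose * A = (k : ℤ) • (1 : Matrix (Fin N) (Fin N) ℤ) ∧
      A * A.transpose = (k : ℤ) • (1 : Matrix (Fin N) (Fin N) ℤ) := by
  obtain ⟨C, hC⟩ := Pool.Agent.H182.WL.weights
  refine ⟨C, ?_⟩
  rintro r t N k ht ⟨n, rfl⟩ hkN hkr hor
  refine hC r t n k ht hkN hkr ?_
  rcases hor with h | h
  · left
    have e : 2 ^ (2 * t + 1) * n = 2 ^ (t + 1) * (2 ^ t * n) := by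
      rw [← mul_assoc, ← pow_add]
      congr 2
      ring
    rw [e] at h
    exact Nat.le_of_mul_le_mul_left h (by positivity)
  · exact Or.inr h

end Pool.Agent.Results.MP_be2ccc_co.LogStarWeights
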