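import Pool.Agent.H182.WL2

/-!
# Weighing matrices of weight `k ≤ (n / 2) ^ (1 / 7)` in every order `n` divisible by four

For every `n` divisible by four and every `k` with `2 k ^ 7 ≤ n` there is a weighing matrix of order
`n` and weight `k`.

For `k = a² + b² + c² + d²` the Williamson array of symmetric weighing matrices of the weights
`a²`, `b²`, `c²`, `d²` (Kronecker products of symmetric matrices `W(p² + p + 1, p²)` from projective
planes of prime order) is a weighing matrix of order `4 u` and weight `k`, with `u` odd and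
`u ≤ k ^ 6`. All weights up to `2 ^ s` occur in the order `2 ^ s`. Direct sums of copies of the two
have all orders `n ≥ 2 k ^ 7` divisible by four.
-/

namespace Pool.Agent.Results.MP_be2ccc_co.SmallWeights

theorem result : ∀ n k : ℕ, 4 ∣ n → 2 * k ^ 7 ≤ n →
    ∃ A : Matrix (Fin n) (Fin n) ℤ,
      (∀ i j, A i j = 0 ∨ A i j = 1 ∨ A i j = -1) ∧
      A.transpose * A = (k : ℤ) • (1 : Matrix (Fin n) (Fin n) ℤ) ∧
      A * A.transpose = (k : ℤ) • (1 : Matrix (Fin n) (Fin n) ℤ) :=
  fun n k h4 hn => Pool.Agent.H182.WL.small_weights n k h4 hn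

end Pool.Agent.Results.MP_be2ccc_co.SmallWeights
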